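import Pool.Agent.PRP.Stmts

/-! Squad PRP, row BNS: Bertini - Noether (helper94). -/

set_option autoImplicit false

namespace Pool.Agent.PRP.H94

open MvPolynomial

/-- the monomials of degree `< D` -/
abbrev Mon (σ : Type) (D : ℕ) : Type := {m : σ →₀ ℕ // m.degree < D}

section

variable {σ : Type} [Finite σ] {D : ℕ}

noncomputable instance : Fintype (Mon σ D) :=
  (Finsupp.finite_of_degree_lt (σ := σ) D).fintype

/-- the polynomial with given coefficients -/
noncomputable def gen {R : Type} [CommRing R] (c : Mon σ D → R) : MvPolynomial σ R :=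
  ∑ m : Mon σ D, monomial m.1 (c m)

theorem map_gen {R S : Type} [CommRing R] [CommRing S] (g : R →+* S) (c : Mon σ D → R) :
    map g (gen c) = gen (fun m => g (c m)) := by
  simp [gen, map_sum, map_monomial]

theorem deg_eq (m : σ →₀ ℕ) : (m.sum fun _ e => e) = m.degree := rfl

theorem gen_coeff {R : Type} [CommRing R] (P : MvPolynomial σ R) (hP : P.totalDegree < D) :
    gen (fun m : Mon σ D => coeff m.1 P) = P := by
  classical
  ext m
  rw [gen, coeff_sum]
  simp only [coeff_monomial]
  by_cases hm : m.degree < D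
  · rw [Finset.sum_eq_single ⟨m, hm⟩]
    · simp
    · intro b _ hb
      rw [if_neg]
      intro h
      exact hb (Subtype.ext h)
    · simp
  · rw [Finset.sum_eq_zero]
    · symm
      by_contra h
      have h1 := le_totalDegree (mem_support_iff.2 h)
      rw [deg_eq] at h1
      omega
    · intro b _
      rw [if_neg]
      intro h
      exact hm (h ▸ b.2)

theorem gen_deg {R : Type} [CommRing R] (hD : 0 < D) (c : Mon σ D → R) :
    (gen c).totalDegree < D := by
  have h1 : (gen c).totalDegree ≤ D - 1 := by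
    apply totalDegree_finsetSum_le
    intro m _
    refine (totalDegree_monomial_le m.1 (c m)).trans ?_
    have h2 : (m.1.sum fun _ => id) = m.1.degree := rfl
    rw [h2]
    have := m.2
    omega
  omega

end

/-- the ideal of the factorisations `P Q = H` -/
noncomputable def facI {A σ : Type} [CommRing A] [Finite σ] (H : MvPolynomial σ A) (D : ℕ) :
    Ideal (MvPolynomial (Mon σ D ⊕ Mon σ D) A) :=
  Ideal.span (Set.range fun m : σ →₀ ℕ =>
    coeff m (gen (fun a : Mon σ D => (X (Sum.inl a) : MvPolynomial (Mon σ D ⊕ Mon σ D) A)) *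
      gen (fun a : Mon σ D => (X (Sum.inr a) : MvPolynomial (Mon σ D ⊕ Mon σ D) A)) - map C H))

theorem facI_le {A σ K : Type} [CommRing A] [Finite σ] [CommRing K] (H : MvPolynomial σ A) (D : ℕ)
    (g : MvPolynomial (Mon σ D ⊕ Mon σ D) A →+* K) :
    facI H D ≤ RingHom.ker g ↔
      gen (fun a : Mon σ D => g (X (Sum.inl a))) * gen (fun a : Mon σ D => g (X (Sum.inr a))) =
        map (g.comp C) H := by
  rw [facI, Ideal.span_le]
  have h1 : map g (gen (fun a : Mon σ D => (X (Sum.inl a) :
      MvPolynomial (Mon σ D ⊕ Mon σ D) A)) *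
      gen (fun a : Mon σ D => (X (Sum.inr a) : MvPolynomial (Mon σ D ⊕ Mon σ D) A)) - map C H) =
      gen (fun a : Mon σ D => g (X (Sum.inl a))) * gen (fun a : Mon σ D => g (X (Sum.inr a))) -
        map (g.comp C) H := by
    rw [map_sub, map_mul, map_gen, map_gen, map_map]
  constructor
  · intro h
    rw [← sub_eq_zero, ← h1]
    ext m
    rw [coeff_map, coeff_zero]
    exact h ⟨m, rfl⟩
  · rintro h _ ⟨m, rfl⟩
    show g _ = 0
    rw [← coeff_map, h1, h, sub_self, coeff_zero]

theorem facI_key {A L σ : Type} [CommRing A] [IsDomain A] [Field L] [Algebra A L]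
    [IsFractionRing A L] [Finite σ] (H : MvPolynomial σ A) (D : ℕ) (hD : 0 < D)
    (hHD : D ≤ H.totalDegree)
    (hH : Irreducible (map ((algebraMap L (AlgebraicClosure L)).comp (algebraMap A L)) H)) :
    ∃ a : A, a ≠ 0 ∧ C a ∈ facI H D := by
  classical
  by_contra hno
  push Not at hno
  letI := algebraMvPolynomial (σ := Mon σ D ⊕ Mon σ D) (R := A) (S := L)
  have hloc : IsLocalization ((nonZeroDivisors A).map (C (σ := Mon σ D ⊕ Mon σ D)))
      (MvPolynomial (Mon σ D ⊕ Mon σ D) L) := MvPolynomial.isLocalization (nonZeroDivisors A) L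
  have hne : (facI H D).map (algebraMap (MvPolynomial (Mon σ D ⊕ Mon σ D) A)
      (MvPolynomial (Mon σ D ⊕ Mon σ D) L)) ≠ ⊤ := by
    rw [IsLocalization.map_algebraMap_ne_top_iff_disjoint
      ((nonZeroDivisors A).map (C (σ := Mon σ D ⊕ Mon σ D)))]
    rw [Set.disjoint_left]
    rintro _ ⟨a, ha, rfl⟩ h
    exact hno a (nonZeroDivisors.ne_zero ha) h
  obtain ⟨𝔪, h𝔪, hle⟩ := Ideal.exists_le_maximal _ hne
  letI : Field (MvPolynomial (Mon σ D ⊕ Mon σ D) L ⧸ 𝔪) := Ideal.Quotient.field 𝔪
  haveI : Module.Finite L (MvPolynomial (Mon σ D ⊕ Mon σ D) L ⧸ 𝔪) :=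
    finite_of_finite_type_of_isJacobsonRing L _
  let j : (MvPolynomial (Mon σ D ⊕ Mon σ D) L ⧸ 𝔪) →ₐ[L] AlgebraicClosure L :=
    IsAlgClosed.lift
  let g : MvPolynomial (Mon σ D ⊕ Mon σ D) A →+* AlgebraicClosure L :=
    (j.toRingHom.comp (Ideal.Quotient.mk 𝔪)).comp (map (algebraMap A L))
  have hg : facI H D ≤ RingHom.ker g := by
    intro x hx
    have h1 : map (algebraMap A L) x ∈ 𝔪 := hle (Ideal.mem_map_of_mem _ hx)
    show j.toRingHom ((Ideal.Quotient.mk 𝔪) (map (algebraMap A L) x)) = 0
    rw [Ideal.Quotient.eq_zero_iff_mem.2 h1, map_zero]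
  have hgC : g.comp C = (algebraMap L (AlgebraicClosure L)).comp (algebraMap A L) := by
    ext a
    show j (Ideal.Quotient.mk 𝔪 (map (algebraMap A L) (C a))) = _
    rw [map_C]
    exact j.commutes _
  rw [facI_le, hgC] at hg
  have hinj : Function.Injective ((algebraMap L (AlgebraicClosure L)).comp (algebraMap A L)) :=
    (algebraMap L (AlgebraicClosure L)).injective.comp (IsFractionRing.injective A L)
  have hdeg : (map ((algebraMap L (AlgebraicClosure L)).comp (algebraMap A L)) H).totalDegree =
      H.totalDegree := by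
    unfold totalDegree
    rw [support_map_of_injective _ hinj]
  have hunit : ∀ P : MvPolynomial σ (AlgebraicClosure L), IsUnit P → P.totalDegree = 0 :=
    fun P hP => (isUnit_iff_totalDegree_of_isReduced.1 hP).2
  rw [← hg] at hdeg
  have h2 := totalDegree_mul (gen (fun a : Mon σ D => g (X (Sum.inl a))))
    (gen (fun a : Mon σ D => g (X (Sum.inr a))))
  have h3 := gen_deg hD (fun a : Mon σ D => g (X (Sum.inl a)))
  have h4 := gen_deg hD (fun a : Mon σ D => g (X (Sum.inr a)))
  rcases hH.isUnit_or_isUnit hg.symm with h | h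
  · have := hunit _ h
    omega
  · have := hunit _ h
    omega

theorem bns : BnsStmt := by
  classical
  intro A L _ _ _ _ _ σ _ H hH
  have hinj : Function.Injective ((algebraMap L (AlgebraicClosure L)).comp (algebraMap A L)) :=
    (algebraMap L (AlgebraicClosure L)).injective.comp (IsFractionRing.injective A L)
  have hD : 0 < H.totalDegree := by
    rw [Nat.pos_iff_ne_zero]
    intro h0
    apply hH.not_isUnit
    have h1 := totalDegree_eq_zero_iff_eq_C.1 h0
    rw [h1, map_C]
    apply IsUnit.map
    rw [isUnit_iff_ne_zero]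
    intro h2
    apply hH.ne_zero
    rw [h1, map_C, h2, C_0]
  have hH0 : H ≠ 0 := by
    rintro rfl
    simp at hD
  obtain ⟨a, ha, haI⟩ := facI_key H H.totalDegree hD le_rfl hH
  obtain ⟨m0, hm0, hm0D⟩ : ∃ m ∈ H.support, H.totalDegree = (m.sum fun _ e => e) :=
    Finset.exists_mem_eq_sup _ (support_nonempty.2 hH0) _
  refine ⟨a * coeff m0 H, mul_ne_zero ha (mem_support_iff.1 hm0), fun K _ χ hχ => ?_⟩
  rw [map_mul] at hχ
  have hχa : χ a ≠ 0 := left_ne_zero_of_mul hχ
  have hχc : χ (coeff m0 H) ≠ 0 := right_ne_zero_of_mul hχ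
  have hdeg : (map χ H).totalDegree = H.totalDegree := by
    apply le_antisymm
    · exact Finset.sup_mono (support_map_subset _ _)
    · rw [hm0D]
      apply le_totalDegree
      rw [mem_support_iff, coeff_map]
      exact hχc
  have hne : map χ H ≠ 0 := by
    intro h
    rw [h, totalDegree_zero] at hdeg
    omega
  refine ⟨fun h => ?_, fun P Q hPQ => ?_⟩
  · have := (isUnit_iff_totalDegree_of_isReduced.1 h).2
    omega
  · by_contra hcon
    push Not at hcon
    obtain ⟨hP, hQ⟩ := hcon
    have hP0 : P ≠ 0 := by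
      rintro rfl
      rw [zero_mul] at hPQ
      exact hne hPQ
    have hQ0 : Q ≠ 0 := by
      rintro rfl
      rw [mul_zero] at hPQ
      exact hne hPQ
    have hpos : ∀ P : MvPolynomial σ K, P ≠ 0 → ¬ IsUnit P → 0 < P.totalDegree := by
      intro P hP hP'
      rw [Nat.pos_iff_ne_zero]
      intro h0
      apply hP'
      have h1 := totalDegree_eq_zero_iff_eq_C.1 h0
      rw [h1]
      apply IsUnit.map
      rw [isUnit_iff_ne_zero]
      intro h2
      apply hP
      rw [h1, h2, C_0]
    have h1 := totalDegree_mul_of_isDomain hP0 hQ0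
    rw [← hPQ, hdeg] at h1
    have h2 := hpos P hP0 hP
    have h3 := hpos Q hQ0 hQ
    let g : MvPolynomial (Mon σ H.totalDegree ⊕ Mon σ H.totalDegree) A →+* K :=
      eval₂Hom χ (Sum.elim (fun m => coeff m.1 P) (fun m => coeff m.1 Q))
    have hg : facI H H.totalDegree ≤ RingHom.ker g := by
      rw [facI_le]
      have e1 : (fun a : Mon σ H.totalDegree => g (X (Sum.inl a))) =
          fun a => coeff a.1 P := by
        funext a
        simp [g]
      have e2 : (fun a : Mon σ H.totalDegree => g (X (Sum.inr a))) =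
          fun a => coeff a.1 Q := by
        funext a
        simp [g]
      have e3 : g.comp C = χ := by
        ext a
        simp [g]
      rw [e1, e2, e3, gen_coeff P (by omega), gen_coeff Q (by omega), hPQ]
    have h4 : g (C a) = 0 := hg haI
    apply hχa
    simpa [g] using h4

end Pool.Agent.PRP.H94
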