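import Pool.Agent.PRP.Stmts

/-! Squad PRP, row CPR: the specialisation of the correspondence (helper94). -/

set_option autoImplicit false

namespace Pool.Agent.PRP.H94

open MvPolynomial

theorem optionEquivLeft_map {A K σ : Type} [CommRing A] [CommRing K] (χ : A →+* K)
    (P : MvPolynomial (Option σ) A) :
    optionEquivLeft K σ (map χ P) = (optionEquivLeft A σ P).map (map χ) := by
  induction P using MvPolynomial.induction_on with
  | C a => simp [optionEquivLeft_C]
  | add p q hp hq => simp [hp, hq]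
  | mul_X p i hp =>
    rw [map_mul, map_mul, map_mul, Polynomial.map_mul, hp]
    cases i <;> simp

section

variable {A M : Type} [CommRing A] [CommRing M] [Algebra A M] {s : ℕ}

theorem ev_C (t : Fin s → M) (θ : M) (q : MvPolynomial (Fin s) A) :
    ev t θ (Polynomial.C q) = aeval t q := by simp [ev]

theorem ev_X (t : Fin s → M) (θ : M) :
    ev t θ (Polynomial.X : Polynomial (MvPolynomial (Fin s) A)) = θ := by simp [ev]

variable {K M' : Type} [CommRing K] [CommRing M'] [Algebra K M']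

/-- the graph of the specialisation -/
noncomputable def gr (t : Fin s → M) (θ : M) (t' : Fin s → M') (θ' : M') (χ : A →+* K)
    (q : MvPolynomial (Fin s) A) : Subring (M × M') where
  carrier := {x | ∃ (N : ℕ) (P : Polynomial (MvPolynomial (Fin s) A)),
    x.1 * (aeval t q) ^ N = ev t θ P ∧
    x.2 * (aeval t' (map χ q)) ^ N = ev t' θ' (P.map (map χ))}
  mul_mem' := by
    rintro x y ⟨N1, P1, h1, h1'⟩ ⟨N2, P2, h2, h2'⟩
    refine ⟨N1 + N2, P1 * P2, ?_, ?_⟩
    · rw [map_mul, ← h1, ← h2, Prod.fst_mul, pow_add]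
      ring
    · rw [Polynomial.map_mul, map_mul, ← h1', ← h2', Prod.snd_mul, pow_add]
      ring
  one_mem' := ⟨0, 1, by simp, by simp⟩
  add_mem' := by
    rintro x y ⟨N1, P1, h1, h1'⟩ ⟨N2, P2, h2, h2'⟩
    refine ⟨N1 + N2, P1 * Polynomial.C q ^ N2 + P2 * Polynomial.C q ^ N1, ?_, ?_⟩
    · rw [map_add, map_mul, map_mul, map_pow, map_pow, ← h1, ← h2, ev_C, Prod.fst_add, pow_add]
      ring
    · rw [Polynomial.map_add, Polynomial.map_mul, Polynomial.map_mul, Polynomial.map_pow,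
        Polynomial.map_pow, Polynomial.map_C, map_add, map_mul, map_mul, map_pow, map_pow, ← h1',
        ← h2', ev_C, Prod.snd_add, pow_add]
      ring
  zero_mem' := ⟨0, 0, by simp, by simp⟩
  neg_mem' := by
    rintro x ⟨N1, P1, h1, h1'⟩
    refine ⟨N1, -P1, ?_, ?_⟩
    · rw [map_neg, ← h1, Prod.fst_neg, neg_mul]
    · rw [Polynomial.map_neg, map_neg, ← h1', Prod.snd_neg, neg_mul]

theorem gr_poly (t : Fin s → M) (θ : M) (t' : Fin s → M') (θ' : M') (χ : A →+* K)
    (q : MvPolynomial (Fin s) A) (P : Polynomial (MvPolynomial (Fin s) A)) :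
    (ev t θ P, ev t' θ' (P.map (map χ))) ∈ gr t θ t' θ' χ q :=
  ⟨0, P, by simp, by simp⟩

theorem gr_const (t : Fin s → M) (θ : M) (t' : Fin s → M') (θ' : M') (χ : A →+* K)
    (q : MvPolynomial (Fin s) A) (a : A) :
    (algebraMap A M a, algebraMap K M' (χ a)) ∈ gr t θ t' θ' χ q := by
  have h := gr_poly t θ t' θ' χ q (Polynomial.C (C a))
  rw [Polynomial.map_C, ev_C, ev_C, map_C, aeval_C, aeval_C] at h
  exact h

/-- values of polynomials -/
theorem gr_eval {R : Type} [CommRing R] (t : Fin s → M) (θ : M) (t' : Fin s → M') (θ' : M')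
    (χ : A →+* K) (q : MvPolynomial (Fin s) A) {r : ℕ} (w : Fin r → M) (w' : Fin r → M')
    (hw : ∀ i, (w i, w' i) ∈ gr t θ t' θ' χ q) (f : R →+* M) (f' : R →+* M')
    (hf : ∀ a, (f a, f' a) ∈ gr t θ t' θ' χ q) (F : MvPolynomial (Fin r) R) :
    (eval₂ f w F, eval₂ f' w' F) ∈ gr t θ t' θ' χ q := by
  induction F using MvPolynomial.induction_on with
  | C a => rw [eval₂_C, eval₂_C]; exact hf a
  | add p p' hp hp' =>
    rw [eval₂_add, eval₂_add]
    exact (gr t θ t' θ' χ q).add_mem hp hp'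
  | mul_X p i hp =>
    rw [eval₂_mul, eval₂_mul, eval₂_X, eval₂_X]
    exact (gr t θ t' θ' χ q).mul_mem hp (hw i)

end

theorem gr_zero {A M K M' : Type} [CommRing A] [Field M] [Algebra A M] [Field K] [Field M']
    [Algebra K M'] {s : ℕ} {t : Fin s → M} {θ : M} {t' : Fin s → M'} {θ' : M'} {χ : A →+* K}
    {q : MvPolynomial (Fin s) A} {H : Polynomial (MvPolynomial (Fin s) A)}
    (hker : ∀ P : Polynomial (MvPolynomial (Fin s) A), ev t θ P = 0 → H ∣ P)
    (hker' : ev t' θ' (H.map (map χ)) = 0) (hq : aeval t' (map χ q) ≠ 0)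
    {m' : M'} (h : ((0 : M), m') ∈ gr t θ t' θ' χ q) : m' = 0 := by
  obtain ⟨N, P, h1, h2⟩ := h
  rw [zero_mul] at h1
  obtain ⟨Q, rfl⟩ := hker P h1.symm
  rw [Polynomial.map_mul, map_mul, hker', zero_mul] at h2
  exact (mul_eq_zero.1 h2).resolve_right (pow_ne_zero _ hq)

theorem gr_unique {A M K M' : Type} [CommRing A] [Field M] [Algebra A M] [Field K] [Field M']
    [Algebra K M'] {s : ℕ} {t : Fin s → M} {θ : M} {t' : Fin s → M'} {θ' : M'} {χ : A →+* K}
    {q : MvPolynomial (Fin s) A} {H : Polynomial (MvPolynomial (Fin s) A)}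
    (hker : ∀ P : Polynomial (MvPolynomial (Fin s) A), ev t θ P = 0 → H ∣ P)
    (hker' : ev t' θ' (H.map (map χ)) = 0) (hq : aeval t' (map χ q) ≠ 0)
    {m : M} {m1 m2 : M'} (h1 : (m, m1) ∈ gr t θ t' θ' χ q) (h2 : (m, m2) ∈ gr t θ t' θ' χ q) :
    m1 = m2 := by
  have h3 := (gr t θ t' θ' χ q).sub_mem h1 h2
  rw [Prod.mk_sub_mk, sub_self] at h3
  exact sub_eq_zero.1 (gr_zero hker hker' hq h3)

theorem cpr (bns : BnsStmt) (spf : SpfStmt) : CprStmt := by
  classical
  intro k A L M _ _ _ _ _ _ _ _ _ _ _ _ _ s n r t θ H w D N' N G hn ht hmon hdeg hker hfrac hirr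
    hD hN hN' hG
  -- Bertini - Noether
  have hirr' : Irreducible (map ((algebraMap L (AlgebraicClosure L)).comp (algebraMap A L))
      ((optionEquivLeft A (Fin s)).symm H)) := by
    rw [← MulEquiv.irreducible_iff (optionEquivLeft (AlgebraicClosure L) (Fin s)),
      optionEquivLeft_map, AlgEquiv.apply_symm_apply]
    exact hirr
  obtain ⟨h0, hh0, hbn⟩ := bns A L (Option (Fin s)) ((optionEquivLeft A (Fin s)).symm H) hirr'
  -- denominators
  choose q P hq hqP using hfrac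
  let Q : MvPolynomial (Fin s) A := (∏ i, q (w i)) * (q (aeval w D)⁻¹ * q (aeval w G)⁻¹)
  have hQ : Q ≠ 0 := mul_ne_zero (Finset.prod_ne_zero_iff.2 fun i _ => hq _)
    (mul_ne_zero (hq _) (hq _))
  obtain ⟨m0, hm0⟩ := ne_zero_iff.1 hQ
  refine ⟨coeff m0 Q * h0, mul_ne_zero hm0 hh0, fun K _ _ χ hχ => ?_⟩
  rw [map_mul] at hχ
  have hχ1 : χ (coeff m0 Q) ≠ 0 := left_ne_zero_of_mul hχ
  have hχ2 : χ h0 ≠ 0 := right_ne_zero_of_mul hχ
  set χ' : A →+* K := (χ : A →+* K) with hχ'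
  have hQχ : map χ' Q ≠ 0 := by
    rw [ne_zero_iff]
    refine ⟨m0, ?_⟩
    rw [coeff_map]
    exact hχ1
  have hirrK : Irreducible (H.map (map χ')) := by
    have h1 := hbn K χ' hχ2
    rw [← MulEquiv.irreducible_iff (optionEquivLeft K (Fin s)),
      optionEquivLeft_map, AlgEquiv.apply_symm_apply] at h1
    exact h1
  obtain ⟨M', fM, aM, t', θ', ht', hker', hgen, hfin⟩ := spf K s (H.map (map χ')) (hmon.map _)
    hirrK
  letI : Algebra k M' := ((algebraMap K M').comp (algebraMap k K)).toAlgebra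
  haveI : IsScalarTower k K M' := IsScalarTower.of_algebraMap_eq fun _ => rfl
  have hQ' : aeval t' (map χ' Q) ≠ 0 := fun h => hQχ (ht' (by rw [h, map_zero]))
  have hH0 : ev t' θ' (H.map (map χ')) = 0 := (hker' _).2 dvd_rfl
  have hker1 : ∀ P : Polynomial (MvPolynomial (Fin s) A), ev t θ P = 0 → H ∣ P :=
    fun P => (hker P).1
  have hex : ∀ m : M, q m ∣ Q → ∃ m' : M', (m, m') ∈ gr t θ t' θ' χ' Q := by
    rintro m ⟨c, hc⟩
    refine ⟨ev t' θ' ((P m * Polynomial.C c).map (map χ')) / aeval t' (map χ' Q), 1,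
      P m * Polynomial.C c, ?_, ?_⟩
    · show m * aeval t Q ^ 1 = _
      rw [pow_one, map_mul (ev t θ), ev_C, ← hqP m, hc, map_mul (aeval t), mul_assoc]
    · show _ / _ * aeval t' (map χ' Q) ^ 1 = _
      rw [pow_one, div_mul_cancel₀ _ hQ']
  have hexw : ∀ i, ∃ m' : M', (w i, m') ∈ gr t θ t' θ' χ' Q := fun i =>
    hex (w i) (Dvd.dvd.mul_right (Finset.dvd_prod_of_mem (fun i => q (w i)) (Finset.mem_univ i)) _)
  choose w' hw' using hexw
  obtain ⟨δ, hδ⟩ := hex (aeval w D)⁻¹ (Dvd.dvd.mul_left (Dvd.intro _ rfl) _)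
  obtain ⟨γ, hγ⟩ := hex (aeval w G)⁻¹ (Dvd.dvd.mul_left (Dvd.intro_left _ rfl) _)
  have hA : ∀ F : MvPolynomial (Fin r) A, (aeval w F, eval₂ ((algebraMap K M').comp χ') w' F) ∈
      gr t θ t' θ' χ' Q := fun F =>
    gr_eval t θ t' θ' χ' Q w w' hw' (algebraMap A M) ((algebraMap K M').comp χ')
      (fun a => gr_const t θ t' θ' χ' Q a) F
  have hk : ∀ F : MvPolynomial (Fin r) k, (aeval w F, aeval w' F) ∈ gr t θ t' θ' χ' Q :=
    fun F => gr_eval t θ t' θ' χ' Q w w' hw' (algebraMap k M) (algebraMap k M') (fun a => by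
      have h1 := gr_const t θ t' θ' χ' Q (algebraMap k A a)
      rw [← IsScalarTower.algebraMap_apply k A M] at h1
      have h2 : χ' (algebraMap k A a) = algebraMap k K a := χ.commutes a
      rw [h2] at h1
      exact h1) F
  have hone : ((1 : M), (1 : M')) ∈ gr t θ t' θ' χ' Q := (gr t θ t' θ' χ' Q).one_mem
  have hDχ : eval₂ ((algebraMap K M').comp χ') w' D ≠ 0 := by
    intro h1
    have h2 := (gr t θ t' θ' χ' Q).mul_mem (hA D) hδ
    rw [Prod.mk_mul_mk, mul_inv_cancel₀ hD, h1, zero_mul] at h2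
    exact one_ne_zero (gr_unique hker1 hH0 hQ' hone h2)
  have hGχ : aeval w' G ≠ 0 := by
    intro h1
    have h2 := (gr t θ t' θ' χ' Q).mul_mem (hk G) hγ
    rw [Prod.mk_mul_mk, mul_inv_cancel₀ hG, h1, zero_mul] at h2
    exact one_ne_zero (gr_unique hker1 hH0 hQ' hone h2)
  have hmemA : ∀ F : MvPolynomial (Fin r) A, eval₂ ((algebraMap K M').comp χ') w' F ∈
      IntermediateField.adjoin K (Set.range w') := by
    intro F
    have h1 : eval₂ ((algebraMap K M').comp χ') w' F = aeval w' (map χ' F) := by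
      rw [aeval_def, eval₂_map]
    rw [h1]
    have h2 : aeval w' (map χ' F) ∈ Algebra.adjoin K (Set.range w') := by
      rw [Algebra.adjoin_range_eq_range_aeval]
      exact ⟨_, rfl⟩
    exact IntermediateField.algebra_adjoin_le_adjoin K _ h2
  have hdivA : ∀ (x : M) (x' : M') (F : MvPolynomial (Fin r) A),
      (x, x') ∈ gr t θ t' θ' χ' Q → x * aeval w D = aeval w F →
      x' ∈ IntermediateField.adjoin K (Set.range w') := by
    intro x x' F hx hxF
    have h1 := (gr t θ t' θ' χ' Q).mul_mem hx (hA D)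
    rw [Prod.mk_mul_mk, hxF] at h1
    have h2 := gr_unique hker1 hH0 hQ' h1 (hA F)
    have h3 : x' = eval₂ ((algebraMap K M').comp χ') w' F /
        eval₂ ((algebraMap K M').comp χ') w' D := by
      rw [← h2, mul_div_cancel_right₀ _ hDχ]
    rw [h3]
    exact div_mem (hmemA F) (hmemA D)
  refine ⟨M', fM, aM, inferInstance, inferInstance, t', w', ht', ?_, ?_, ?_, hGχ⟩
  · rw [hfin, hmon.natDegree_map, hdeg]
  · rw [eq_top_iff, ← hgen, IntermediateField.adjoin_le_iff]
    rintro x (rfl | ⟨j, rfl⟩)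
    · have h1 := gr_poly t θ t' x χ' Q (Polynomial.X)
      rw [Polynomial.map_X, ev_X, ev_X] at h1
      exact hdivA θ x N' h1 hN'
    · have h1 := gr_poly t θ t' θ' χ' Q (Polynomial.C (X j))
      rw [Polynomial.map_C, ev_C, ev_C, map_X, aeval_X, aeval_X] at h1
      exact hdivA (t j) (t' j) (N j) h1 (hN j)
  · intro F hF
    have h1 := hk F
    rw [hF] at h1
    exact gr_zero hker1 hH0 hQ' h1

end Pool.Agent.PRP.H94
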