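import Pool.Agent.PRP.Stmts
import Pool.Agent.Helper55_DDQ.Quartic
import Pool.Agent.Helper12_DDS.SchBir

/-! Squad PRP, one point suffices if `s` is the dimension of `X` (helper94). -/

set_option autoImplicit false

open scoped TensorProduct

noncomputable section

namespace Pool.Agent.PRP.H94

open MvPolynomial

theorem inj_of_trdeg {k A B : Type} [Field k] [CommRing A] [IsDomain A] [Algebra k A] [CommRing B]
    [IsDomain B] [Algebra k B] (ψ : A →ₐ[k] B) (hψ : Function.Surjective ψ) (s : ℕ)
    (hA : Algebra.trdeg k A = s) (hB : Algebra.trdeg k B = s) : Function.Injective ψ := by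
  classical
  rw [injective_iff_map_eq_zero]
  intro a ha
  by_contra hne
  obtain ⟨ι, b, hb⟩ := exists_isTranscendenceBasis' k B
  have hι : Cardinal.mk ι = s := by rw [hb.cardinalMk_eq_trdeg, hB]
  choose c hc using fun i => hψ (b i)
  have hcb : ψ ∘ c = b := funext hc
  have hci : AlgebraicIndependent k c := AlgebraicIndependent.of_comp ψ (by rw [hcb]; exact hb.1)
  have : Finite ι := by
    rw [← Cardinal.lt_aleph0_iff_finite, hι]
    exact Cardinal.natCast_lt_aleph0
  have hct : IsTranscendenceBasis k c :=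
    hci.isTranscendenceBasis_of_trdeg_le_of_finite (by rw [hA, hι])
  have := hct.isAlgebraic
  obtain ⟨r, hr, hdvd⟩ := (Algebra.IsAlgebraic.isAlgebraic (R := Algebra.adjoin k (Set.range c))
    a).exists_nonzero_dvd (mem_nonZeroDivisors_of_ne_zero hne)
  obtain ⟨F, hF⟩ : ∃ F : MvPolynomial ι k, aeval c F = (r : A) := by
    have h0 : (Algebra.adjoin k (Set.range c) : Subalgebra k A) ≤ (aeval c).range :=
      (Algebra.adjoin_range_eq_range_aeval k c).le
    exact h0 r.2
  have h1 : ψ (aeval c F) = 0 := by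
    obtain ⟨q, hq⟩ := hdvd
    have h2 : aeval c F = a * q := by
      rw [← hq]
      exact hF
    rw [h2, map_mul, ha, zero_mul]
  have h3 : ψ (aeval c F) = aeval b F := by
    rw [← hcb]
    exact (MvPolynomial.comp_aeval_apply c ψ F).symm ▸ rfl
  rw [h3] at h1
  have h4 : F = 0 := hb.1 (by rw [h1, map_zero])
  apply hr
  apply Subtype.ext
  rw [← hF, h4]
  simp

theorem trdeg_aux {k K M : Type} [Field k] [Field K] [Field M] [Algebra k K] [Algebra K M]
    [Algebra k M] [IsScalarTower k K M] [Algebra.IsAlgebraic k K] (s n : ℕ) (t : Fin s → M)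
    (hn : 0 < n) (ht : AlgebraicIndependent K t)
    (hfin : Module.finrank (IntermediateField.adjoin K (Set.range t)) M = n) :
    Algebra.trdeg k M = s := by
  have h1 := trdeg_add_eq k K (A := M)
  rw [trdeg_eq_zero, zero_add] at h1
  rw [← h1]
  have : FiniteDimensional (IntermediateField.adjoin K (Set.range t)) M :=
    Module.finite_of_finrank_pos (by rw [hfin]; exact hn)
  have h2 : IsTranscendenceBasis K t := by
    rw [ht.isTranscendenceBasis_iff_isAlgebraic]
    open scoped IntermediateField.algebraAdjoinAdjoin in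
    exact Algebra.IsAlgebraic.trans _ (IntermediateField.adjoin K (Set.range t)) _
  rw [← h2.cardinalMk_eq_trdeg]
  simp

theorem alg_aux {k K M : Type} [Field k] [Field K] [Field M] [Algebra k K] [Algebra K M]
    [Algebra k M] [IsScalarTower k K M] [Algebra.IsAlgebraic k K] (S : Set M)
    (hS : IntermediateField.adjoin K S = ⊤) : Algebra.IsAlgebraic (Algebra.adjoin k S) M := by
  have h1 : Algebra.IsAlgebraic (IntermediateField.adjoin k S) M := by
    refine ⟨fun m => ?_⟩
    have hm : m ∈ IntermediateField.adjoin K S := by rw [hS]; trivial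
    induction hm using IntermediateField.adjoin_induction with
    | mem x hx =>
      exact isAlgebraic_algebraMap (⟨x, IntermediateField.subset_adjoin _ _ hx⟩ :
        IntermediateField.adjoin k S)
    | algebraMap x =>
      have h2 : IsAlgebraic k x := Algebra.IsAlgebraic.isAlgebraic x
      exact (h2.algebraMap (A := M)).tower_top (IntermediateField.adjoin k S)
    | add x y _ _ hx hy => exact hx.add hy
    | inv x _ hx => exact hx.inv
    | mul x y _ _ hx hy => exact hx.mul hy
  open scoped IntermediateField.algebraAdjoinAdjoin in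
  exact Algebra.IsAlgebraic.trans _ (IntermediateField.adjoin k S) _

/-- the relations of `w'` are those of `X` if the dimensions agree -/
theorem rel_eq {k K L M : Type} [Field k] [Field K] [Field M] [Algebra k K] [Algebra K M]
    [Algebra k M] [IsScalarTower k K M] [Algebra.IsAlgebraic k K] (s n r : ℕ) (t : Fin s → M)
    (w : Fin r → M) (hn : 0 < n) (ht : AlgebraicIndependent K t)
    (hfin : Module.finrank (IntermediateField.adjoin K (Set.range t)) M = n)
    (hw : IntermediateField.adjoin K (Set.range w) = ⊤)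
    (I : Ideal (MvPolynomial (Fin r) k)) (hI : I.IsPrime)
    [Field L] [Algebra (MvPolynomial (Fin r) k ⧸ I) L]
    [IsFractionRing (MvPolynomial (Fin r) k ⧸ I) L] [Algebra k L]
    [IsScalarTower k (MvPolynomial (Fin r) k ⧸ I) L] (htr : Algebra.trdeg k L = s)
    (hIw : ∀ P ∈ I, aeval w P = 0) (P : MvPolynomial (Fin r) k) (hP : aeval w P = 0) : P ∈ I := by
  have : IsDomain (MvPolynomial (Fin r) k ⧸ I) := Ideal.Quotient.isDomain I
  let ψ : (MvPolynomial (Fin r) k ⧸ I) →ₐ[k] M := Ideal.Quotient.liftₐ I (aeval w) hIw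
  have hψ : ∀ Q : MvPolynomial (Fin r) k, ψ (Ideal.Quotient.mk I Q) = aeval w Q := fun Q => rfl
  have hrange : ψ.range = Algebra.adjoin k (Set.range w) := by
    rw [Algebra.adjoin_range_eq_range_aeval]
    apply le_antisymm
    · rintro _ ⟨a, rfl⟩
      obtain ⟨Q, rfl⟩ := Ideal.Quotient.mk_surjective a
      exact ⟨Q, rfl⟩
    · rintro _ ⟨Q, rfl⟩
      exact ⟨Ideal.Quotient.mk I Q, rfl⟩
  have hM := trdeg_aux (k := k) s n t hn ht hfin
  have halg : Algebra.IsAlgebraic ψ.range M := by
    rw [hrange]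
    exact alg_aux (K := K) _ hw
  have hB : Algebra.trdeg k ψ.range = s := by
    have h1 := trdeg_add_eq k ψ.range (A := M)
    rw [trdeg_eq_zero (R := ψ.range) (A := M), add_zero] at h1
    rw [h1, hM]
  have hA : Algebra.trdeg k (MvPolynomial (Fin r) k ⧸ I) = s := by
    have : Algebra.IsAlgebraic (MvPolynomial (Fin r) k ⧸ I) L :=
      IsLocalization.isAlgebraic _ (nonZeroDivisors (MvPolynomial (Fin r) k ⧸ I))
    have h1 := trdeg_add_eq k (MvPolynomial (Fin r) k ⧸ I) (A := L)
    rw [trdeg_eq_zero (R := MvPolynomial (Fin r) k ⧸ I) (A := L), add_zero] at h1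
    rw [h1, htr]
  have hinj := inj_of_trdeg ψ.rangeRestrict ψ.rangeRestrict_surjective s hA hB
  have h2 : ψ.rangeRestrict (Ideal.Quotient.mk I P) = 0 := by
    apply Subtype.ext
    exact hP
  exact Ideal.Quotient.eq_zero_iff_mem.1 (hinj (by rw [h2, map_zero]))

/-- One point suffices. -/
theorem one_pt (hTRL : DDQ.TrlStmt) (hCOR : CorStmt) (k : Type) [Field k] [NumberField k] (r : ℕ)
    (I : Ideal (MvPolynomial (Fin r) k)) (hI : I.IsPrime)
    (L M : Type) [Field L] [Algebra (MvPolynomial (Fin r) k ⧸ I) L]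
    [IsFractionRing (MvPolynomial (Fin r) k ⧸ I) L] [Algebra k L]
    [IsScalarTower k (MvPolynomial (Fin r) k ⧸ I) L] [Field M] [Algebra L M]
    (φ : (MvPolynomial (Fin r) k ⧸ I) →+* M) (s n : ℕ) (t : Fin s → M)
    (hφk : ∀ a : k, φ (algebraMap k _ a) =
      algebraMap L M (algebraMap (MvPolynomial (Fin r) k ⧸ I) L (algebraMap k _ a)))
    (hgen : IntermediateField.adjoin L (Set.range φ) = ⊤)
    (hdom : IsDomain (AlgebraicClosure L ⊗[L] M)) (hs : 0 < s) (hn : 0 < n)
    (hind : AlgebraicIndependent L t)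
    (hfin : Module.finrank (IntermediateField.adjoin L (Set.range t)) M = n)
    (htr : Algebra.trdeg k L = s) :
    ∃ h : MvPolynomial (Fin r) k, h ∉ I ∧
      ∀ x ∈ DDS.Zeros k (I : Set (MvPolynomial (Fin r) k)), aeval x h ≠ 0 →
        DDS.DenseDeg k (DDS.Zeros k (I : Set (MvPolynomial (Fin r) k))) (n * DDS.ptDeg k x) := by
  have : IsDomain (MvPolynomial (Fin r) k ⧸ I) := Ideal.Quotient.isDomain I
  let f : k →+* L := (algebraMap (MvPolynomial (Fin r) k ⧸ I) L).comp (algebraMap k _)
  have : CharZero L := charZero_of_injective_ringHom f.injective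
  let algAM : Algebra (MvPolynomial (Fin r) k ⧸ I) M :=
    ((algebraMap L M).comp (algebraMap (MvPolynomial (Fin r) k ⧸ I) L)).toAlgebra
  have : IsScalarTower (MvPolynomial (Fin r) k ⧸ I) L M := IsScalarTower.of_algebraMap_eq fun _ => rfl
  let algkM : Algebra k M := ((algebraMap (MvPolynomial (Fin r) k ⧸ I) M).comp
    (algebraMap k (MvPolynomial (Fin r) k ⧸ I))).toAlgebra
  have : @IsScalarTower k (MvPolynomial (Fin r) k ⧸ I) M Algebra.toSMul Algebra.toSMul
      Algebra.toSMul := IsScalarTower.of_algebraMap_eq fun _ => rfl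
  let w : Fin r → M := fun i => φ (Ideal.Quotient.mk I (X i))
  have hw : ∀ Q : MvPolynomial (Fin r) k, aeval w Q = φ (Ideal.Quotient.mk I Q) := by
    intro Q
    induction Q using MvPolynomial.induction_on with
    | C a =>
      rw [aeval_C]
      exact (hφk a).symm
    | add p q hp hq => rw [map_add, map_add, map_add, hp, hq]
    | mul_X p i hp => rw [map_mul, map_mul, map_mul, hp, aeval_X]
  have hadj : IntermediateField.adjoin L (Set.range w) = ⊤ := by
    rw [← top_le_iff, ← hgen, IntermediateField.adjoin_le_iff]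
    rintro _ ⟨a, rfl⟩
    obtain ⟨Q, rfl⟩ := Ideal.Quotient.mk_surjective a
    change φ (Ideal.Quotient.mk I Q) ∈ IntermediateField.adjoin L (Set.range w)
    rw [← hw]
    induction Q using MvPolynomial.induction_on with
    | C a =>
      rw [aeval_C]
      exact (IntermediateField.adjoin L (Set.range w)).algebraMap_mem
        (algebraMap (MvPolynomial (Fin r) k ⧸ I) L (algebraMap k _ a))
    | add p q hp hq =>
      rw [map_add]
      exact add_mem hp hq
    | mul_X p i hp =>
      rw [map_mul, aeval_X]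
      exact mul_mem hp (IntermediateField.subset_adjoin _ _ ⟨i, rfl⟩)
  have hw1 : aeval w (1 : MvPolynomial (Fin r) k) ≠ 0 := by
    rw [map_one]
    exact one_ne_zero
  obtain ⟨h, hh0, hS⟩ := hCOR k (MvPolynomial (Fin r) k ⧸ I) L M s n r t w 1 hn hdom hind hfin
    hadj hw1
  obtain ⟨h', rfl⟩ := Ideal.Quotient.mk_surjective h
  refine ⟨h', fun hc => hh0 (Ideal.Quotient.eq_zero_iff_mem.2 hc), fun x hx hxh => ?_⟩
  let K : IntermediateField k (AlgebraicClosure k) := DDS.Fld k x
  have hxK : ∀ i, x i ∈ K := fun i => IntermediateField.subset_adjoin _ _ ⟨i, rfl⟩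
  let x' : Fin r → K := fun i => ⟨x i, hxK i⟩
  have hx' : ∀ Q : MvPolynomial (Fin r) k, ((aeval x' Q : K) : AlgebraicClosure k) = aeval x Q := by
    intro Q
    have h1 := MvPolynomial.aeval_algebraMap_apply (AlgebraicClosure k) x' Q
    exact h1.symm
  let χ : (MvPolynomial (Fin r) k ⧸ I) →ₐ[k] K := Ideal.Quotient.liftₐ I (aeval x') (by
    intro Q hQ
    apply Subtype.ext
    rw [hx' Q]
    exact hx Q hQ)
  have hχ : ∀ Q : MvPolynomial (Fin r) k, χ (Ideal.Quotient.mk I Q) = aeval x' Q := fun Q => rfl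
  obtain ⟨M', _, _, _, _, t', w', h1, h2, h3, h4, -⟩ := hS K χ (by
    rw [hχ]
    intro hc
    apply hxh
    rw [← hx', hc]
    rfl)
  have : FiniteDimensional k K :=
    IntermediateField.finiteDimensional_adjoin fun y _ => Algebra.IsIntegral.isIntegral y
  have hIw : ∀ Q ∈ I, aeval w' Q = 0 := by
    intro Q hQ
    apply h4
    rw [hw, Ideal.Quotient.eq_zero_iff_mem.2 hQ, map_zero]
  rintro P ⟨x0, hx0, hx0P⟩
  have h5 : aeval w' P ≠ 0 := by
    intro hc
    exact hx0P (hx0 P (rel_eq (L := L) s n r t' w' hn h1 h2 h3 I hI htr hIw P hc))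
  obtain ⟨y, hy1, hy2, hy3⟩ := hTRL k K M' r s t' w' n hs hn h1 h3 h2 P h5
  refine ⟨y, fun Q hQ => hy1 Q (hIw Q hQ), ?_, hy2⟩
  change Module.finrank k (IntermediateField.adjoin k (Set.range y)) = n * DDS.ptDeg k x
  rw [hy3]
  rfl

end Pool.Agent.PRP.H94
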