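import Pool.Agent.Helper94_PRP.SCH
import Pool.Agent.Helper94_PRP.ONE

/-! Squad PRP: the theorem for schemes (helper94). -/

set_option autoImplicit false

open AlgebraicGeometry CategoryTheory
open scoped TensorProduct

noncomputable section

namespace Pool.Agent.PRP.H94

theorem adjoin_fraction {A L M : Type} [CommRing A] [Field L] [Algebra A L] [IsFractionRing A L]
    [Field M] [Algebra L M] (φ : L →+* M) (h : IntermediateField.adjoin L (Set.range φ) = ⊤) :
    IntermediateField.adjoin L (Set.range (φ.comp (algebraMap A L))) = ⊤ := by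
  rw [← top_le_iff, ← h, IntermediateField.adjoin_le_iff]
  rintro _ ⟨x, rfl⟩
  obtain ⟨a, b, -, rfl⟩ := IsFractionRing.div_surjective (A := A) x
  rw [map_div₀]
  exact div_mem (IntermediateField.subset_adjoin _ _ ⟨a, rfl⟩)
    (IntermediateField.subset_adjoin _ _ ⟨b, rfl⟩)

variable {k : Type} [Field k]

theorem fin_dense [NumberField k] (hAFF : AffStmt) {X : Scheme.{0}} [IsIntegral X]
    (f : X ⟶ AlgebraicGeometry.Spec (CommRingCat.of k)) [LocallyOfFiniteType f]
    (M : Type) [Field M] [Algebra X.functionField M] (φ : X.functionField →+* M)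
    (s n : ℕ) (t : Fin s → M)
    (hφk : ∀ a : k, φ (constF f a) = algebraMap X.functionField M (constF f a))
    (hgen : IntermediateField.adjoin X.functionField (Set.range φ) = ⊤)
    (hdom : IsDomain (AlgebraicClosure X.functionField ⊗[X.functionField] M))
    (hs : 0 < s) (hn : 0 < n) (hind : AlgebraicIndependent X.functionField t)
    (hfin : Module.finrank (IntermediateField.adjoin X.functionField (Set.range t)) M = n)
    (d : ℕ) (hd : DDS.DenseClosed f d) : DDS.DenseClosed f (n * d) := by
  obtain ⟨r, I, j, e, hI, hj, hjf, hek, hfr⟩ := exists_model f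
  have hdomA : IsDomain (MvPolynomial (Fin r) k ⧸ I) := Ideal.Quotient.isDomain I
  have hbir : DDS.Birational f (DDS.affStr I) :=
    ⟨_, j, 𝟙 _, inferInstance, hj, inferInstance, by rw [hjf, Category.id_comp]⟩
  rw [DDS.denseClosed_birational f I hI hbir] at hd ⊢
  letI : Algebra (MvPolynomial (Fin r) k ⧸ I) X.functionField := e.toAlgebra
  have hfr' : IsFractionRing (MvPolynomial (Fin r) k ⧸ I) X.functionField := hfr
  refine hAFF k r I hI X.functionField M (φ.comp (algebraMap (MvPolynomial (Fin r) k ⧸ I)
    X.functionField)) s n t ?_ ?_ (adjoin_fraction φ hgen) hdom hs hn hind hfin d hd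
  · exact φ.injective.comp (IsFractionRing.injective _ _)
  · intro a
    show φ (e (algebraMap k _ a)) = algebraMap X.functionField M (e (algebraMap k _ a))
    rw [hek]
    exact hφk a

theorem fin_one [NumberField k] (hCOR : CorStmt) {X : Scheme.{0}} [IsIntegral X]
    (f : X ⟶ AlgebraicGeometry.Spec (CommRingCat.of k)) [LocallyOfFiniteType f]
    (M : Type) [Field M] [Algebra X.functionField M] (φ : X.functionField →+* M)
    (s n : ℕ) (t : Fin s → M)
    (hφk : ∀ a : k, φ (constF f a) = algebraMap X.functionField M (constF f a))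
    (hgen : IntermediateField.adjoin X.functionField (Set.range φ) = ⊤)
    (hdom : IsDomain (AlgebraicClosure X.functionField ⊗[X.functionField] M))
    (hs : 0 < s) (hn : 0 < n) (hind : AlgebraicIndependent X.functionField t)
    (hfin : Module.finrank (IntermediateField.adjoin X.functionField (Set.range t)) M = n)
    (htr : @Algebra.trdeg k X.functionField _ _ (constF f).toAlgebra = s) :
    ∃ U : Set X, IsOpen U ∧ U.Nonempty ∧ ∀ x ∈ U, IsClosed ({x} : Set X) →
      DDS.DenseClosed f (n * DDS.degAt f x) := by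
  obtain ⟨r, I, j, e, hI, hj, hjf, hek, hfr⟩ := exists_model f
  have hdomA : IsDomain (MvPolynomial (Fin r) k ⧸ I) := Ideal.Quotient.isDomain I
  have hbir : DDS.Birational f (DDS.affStr I) :=
    ⟨_, j, 𝟙 _, inferInstance, hj, inferInstance, by rw [hjf, Category.id_comp]⟩
  letI : Algebra (MvPolynomial (Fin r) k ⧸ I) X.functionField := e.toAlgebra
  have hfr' : IsFractionRing (MvPolynomial (Fin r) k ⧸ I) X.functionField := hfr
  letI : Algebra k X.functionField := (constF f).toAlgebra
  have htow0 : @IsScalarTower k (MvPolynomial (Fin r) k ⧸ I) X.functionField Algebra.toSMul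
      Algebra.toSMul Algebra.toSMul := IsScalarTower.of_algebraMap_eq fun a => (hek a).symm
  have htow : IsScalarTower k (MvPolynomial (Fin r) k ⧸ I) X.functionField := htow0
  obtain ⟨h, hhI, hone⟩ := one_pt DDQ.H55.trl' hCOR k r I hI X.functionField M
    (φ.comp (algebraMap (MvPolynomial (Fin r) k ⧸ I) X.functionField)) s n t (by
      intro a
      show φ (e (algebraMap k _ a)) = algebraMap X.functionField M (e (algebraMap k _ a))
      rw [hek]
      exact hφk a) (adjoin_fraction φ hgen) hdom hs hn hind hfin htr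
  have hJX : JacobsonSpace X := LocallyOfFiniteType.jacobsonSpace f
  have hje : Topology.IsOpenEmbedding j := j.isOpenEmbedding
  let V : Set (AlgebraicGeometry.Spec (CommRingCat.of (MvPolynomial (Fin r) k ⧸ I))) :=
    (PrimeSpectrum.basicOpen (Ideal.Quotient.mk I h) :
      Set (PrimeSpectrum (MvPolynomial (Fin r) k ⧸ I)))
  have hV : IsOpen V := (PrimeSpectrum.basicOpen (Ideal.Quotient.mk I h)).2
  refine ⟨j '' V, hje.isOpenMap V hV, ?_, ?_⟩
  · refine Set.Nonempty.image j ⟨⟨⊥, Ideal.isPrime_bot⟩, ?_⟩
    show Ideal.Quotient.mk I h ∉ (⊥ : Ideal _)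
    rw [Ideal.mem_bot, Ideal.Quotient.eq_zero_iff_mem]
    exact hhI
  · rintro _ ⟨u, hu, rfl⟩ hcl
    have hclu : IsClosed ({u} : Set _) := by
      have h1 := hje.preimage_closedPoints
      have h2 : u ∈ closedPoints _ ↔ j u ∈ closedPoints X := by
        rw [← h1]
        rfl
      exact h2.2 hcl
    obtain ⟨y, hy, hyd, hyP⟩ := DDS.exists_point_of_closed I u hclu
    rw [DDS.denseClosed_birational f I hI hbir, ← DDS.degAt_open, hjf, ← hyd]
    exact hone y hy fun h0 => hu ((hyP h).2 h0)

end Pool.Agent.PRP.H94
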