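import Pool.Agent.Helper94_PRP.WEI
import Pool.Agent.Helper12_DDS.Trunc

/-! Squad PRP: functions of given degree on hyperelliptic curves with a rational point
(helper94). -/

set_option autoImplicit false

noncomputable section

namespace Pool.Agent.PRP.H94

open IntermediateField

theorem pow_rel {L M : Type} [Field L] [Field M] [Algebra L M] (u : M) (hu : Transcendental L u)
    (m : ℕ) (hm : 0 < m) :
    Transcendental L (u ^ m) ∧
      Module.finrank (adjoin L {u ^ m}) M = m * Module.finrank (adjoin L {u}) M := by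
  let K1 : IntermediateField L M := adjoin L {u}
  let u1 : K1 := ⟨u, mem_adjoin_simple_self L u⟩
  have hu1 : Transcendental L u1 := by
    intro h
    exact hu (h.algebraMap (A := M))
  have htop : adjoin L {u1} = ⊤ := by
    rw [eq_top_iff]
    intro x _
    have h2 : (adjoin L {u1}).map K1.val = K1 := by
      rw [adjoin_map, Set.image_singleton]
      rfl
    have h3 : (x : M) ∈ (adjoin L {u1}).map K1.val := by
      rw [h2]
      exact x.2
    obtain ⟨y, hy, hyx⟩ := h3
    have : y = x := Subtype.ext hyx
    rw [← this]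
    exact hy
  obtain ⟨h1, h2⟩ := pow_deg u1 hu1 htop m hm
  have hmap : (adjoin L {u1 ^ m}).map K1.val = adjoin L {u ^ m} := by
    rw [adjoin_map, Set.image_singleton]
    rfl
  have hmap2 : (⊤ : IntermediateField L K1).map K1.val = K1 := by
    rw [← AlgHom.fieldRange_eq_map, fieldRange_val]
  have hle : adjoin L {u ^ m} ≤ K1 := by
    rw [adjoin_le_iff]
    rintro _ rfl
    exact pow_mem (mem_adjoin_simple_self L u) m
  have h3 : relfinrank ((adjoin L {u1 ^ m}).map K1.val)
      ((⊤ : IntermediateField L K1).map K1.val) = m := by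
    rw [relfinrank_map_map, relfinrank_top_right, h2]
  rw [hmap, hmap2] at h3
  refine ⟨?_, ?_⟩
  · intro h
    apply h1
    have h4 : IsAlgebraic L (algebraMap K1 M (u1 ^ m)) := h
    exact (isAlgebraic_algebraMap_iff (algebraMap K1 M).injective).1 h4
  · rw [← relfinrank_mul_finrank_top hle, h3]

theorem quad_coeff {R : Type} [CommRing R] (a b c : R) :
    (Polynomial.C a * Polynomial.X ^ 2 + Polynomial.C b * Polynomial.X + Polynomial.C c).coeff 2 =
      a ∧
    (Polynomial.C a * Polynomial.X ^ 2 + Polynomial.C b * Polynomial.X + Polynomial.C c).coeff 1 =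
      b ∧
    (Polynomial.C a * Polynomial.X ^ 2 + Polynomial.C b * Polynomial.X + Polynomial.C c).coeff 0 =
      c := by
  refine ⟨?_, ?_, ?_⟩ <;> simp [Polynomial.coeff_X, Polynomial.coeff_C]

theorem hyp {L M : Type} [Field L] [CharZero L] [Field M] [Algebra L M] (u v : M)
    (F : Polynomial L) (g : ℕ) (hF : F.natDegree ≤ 2 * g + 2) (hF0 : F.coeff 0 = 1)
    (hu : Transcendental L u) (hv : v ^ 2 = Polynomial.aeval u F)
    (htop : adjoin L {u, v} = ⊤) (n : ℕ) (hn : 0 < n) (h : Even n ∨ g < n) :
    ∃ t : M, Transcendental L t ∧ Module.finrank (adjoin L {t}) M = n := by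
  have hmem : ∀ (K : IntermediateField L M) (x : M), x ∈ K → ∀ P : Polynomial L,
      Polynomial.aeval x P ∈ K := by
    intro K x hx P
    have h0 := Polynomial.aeval_algebraMap_apply M (⟨x, hx⟩ : K) P
    have h1 : Polynomial.aeval x P = algebraMap K M (Polynomial.aeval (⟨x, hx⟩ : K) P) := h0
    rw [h1]
    exact (Polynomial.aeval (⟨x, hx⟩ : K) P).2
  obtain ⟨h1, h2⟩ := finrank_le_two u v _ (hmem _ u (mem_adjoin_simple_self L u) F) hv htop
  rcases Nat.lt_or_ge (Module.finrank (adjoin L {u}) M) 2 with h3 | h3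
  · have h4 : Module.finrank (adjoin L {u}) M = 1 := by omega
    have h5 : adjoin L {u} = ⊤ := finrank_eq_one_iff_eq_top.1 h4
    exact ⟨u ^ n, pow_deg u hu h5 n (by omega)⟩
  have hfin : Module.finrank (adjoin L {u}) M = 2 := by omega
  rcases h with ⟨m, rfl⟩ | hgn
  · obtain ⟨h4, h5⟩ := pow_rel u hu m (by omega)
    exact ⟨u ^ m, h4, by rw [h5, hfin]; ring⟩
  · obtain ⟨S, E, hS, hS0, hSE⟩ := DDS.exists_trunc hF0 n hn
    have hE : E.natDegree ≤ n := DDS.natDegree_E hS (m := g + 1) (by omega) (by omega) hSE
    have hu0 : u ≠ 0 := by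
      rintro rfl
      exact hu isAlgebraic_zero
    have hun : u ^ n ≠ 0 := pow_ne_zero _ hu0
    set t : M := (v + Polynomial.aeval u S) / u ^ n with ht
    have hvt : v = t * u ^ n - Polynomial.aeval u S := by
      rw [ht, div_mul_cancel₀ _ hun]
      ring
    have hrel : u ^ n * t ^ 2 - 2 * Polynomial.aeval u S * t + Polynomial.aeval u E = 0 := by
      have e1 := congrArg (Polynomial.aeval u) hSE
      rw [map_sub, map_pow, map_mul, map_pow, Polynomial.aeval_X] at e1
      have e2 : u ^ n * (u ^ n * t ^ 2 - 2 * Polynomial.aeval u S * t +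
          Polynomial.aeval u E) = 0 := by
        have e3 : v ^ 2 = (t * u ^ n - Polynomial.aeval u S) ^ 2 := by rw [← hvt]
        rw [hv] at e3
        linear_combination e3 * (-1 : M) - e1
      exact (mul_eq_zero.1 e2).resolve_left hun
    let H : Polynomial (Polynomial L) := Polynomial.C (Polynomial.X ^ n) * Polynomial.X ^ 2 +
      Polynomial.C (-(2 * S)) * Polynomial.X + Polynomial.C E
    have hc2 : H.coeff 2 = Polynomial.X ^ n := (quad_coeff _ _ _).1
    have hc1 : H.coeff 1 = -(2 * S) := (quad_coeff _ _ _).2.1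
    have hc0 : H.coeff 0 = E := (quad_coeff _ _ _).2.2
    have hXn : (Polynomial.X ^ n : Polynomial L) ≠ 0 := pow_ne_zero _ Polynomial.X_ne_zero
    have hdeg : H.natDegree = 2 := Polynomial.natDegree_quadratic hXn
    refine ⟨t, DDQ.H21.swp L M u t H n hu ?_ ?_ ?_ ?_ ?_ ?_ ?_ hn⟩
    · rw [← top_le_iff, ← htop, adjoin_le_iff]
      have hu' : u ∈ adjoin L {u, t} := subset_adjoin _ _ (by simp)
      have ht' : t ∈ adjoin L {u, t} := subset_adjoin _ _ (by simp)
      rintro x (rfl | rfl)
      · exact hu'
      · rw [hvt]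
        exact sub_mem (mul_mem ht' (pow_mem hu' n)) (hmem _ u hu' S)
    · intro r hr
      rw [Polynomial.C_dvd_iff_dvd_coeff] at hr
      have r1 := hr 2
      have r2 := hr 1
      rw [hc2] at r1
      rw [hc1] at r2
      have hcop : IsCoprime (Polynomial.X ^ n : Polynomial L) (-(2 * S)) := by
        apply IsCoprime.pow_left
        rw [Polynomial.irreducible_X.coprime_iff_not_dvd, Polynomial.X_dvd_iff]
        intro h0
        rw [Polynomial.coeff_neg, neg_eq_zero, Polynomial.mul_coeff_zero, hS0, mul_one] at h0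
        have : ((2 : Polynomial L)).coeff 0 = 2 := Polynomial.coeff_ofNat_zero 2
        rw [this] at h0
        exact two_ne_zero h0
      exact hcop.isUnit_of_dvd' r1 r2
    · show H.eval₂ (Polynomial.aeval u : Polynomial L →ₐ[L] M).toRingHom t = 0
      simp only [H, Polynomial.eval₂_add, Polynomial.eval₂_mul, Polynomial.eval₂_C,
        Polynomial.eval₂_pow, Polynomial.eval₂_X]
      simp only [AlgHom.toRingHom_eq_coe, RingHom.coe_coe, map_pow, Polynomial.aeval_X, map_neg,
        map_mul, map_ofNat]
      rw [← hrel]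
      ring
    · rw [hdeg, hfin]
    · rw [hdeg]
      norm_num
    · intro i
      rcases Nat.lt_or_ge 2 i with hi | hi
      · rw [Polynomial.coeff_eq_zero_of_natDegree_lt (by rw [hdeg]; exact hi)]
        simp
      · interval_cases i
        · rw [hc0]
          exact hE
        · rw [hc1, Polynomial.natDegree_neg]
          have : (2 * S).natDegree ≤ S.natDegree := by
            have e : (2 : Polynomial L) * S = Polynomial.C 2 * S := by
              rw [map_ofNat]
            rw [e]
            exact Polynomial.natDegree_C_mul_le _ _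
          omega
        · rw [hc2, Polynomial.natDegree_X_pow]
    · exact ⟨2, by rw [hc2, Polynomial.coeff_X_pow_self]; exact one_ne_zero⟩

end Pool.Agent.PRP.H94
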