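import Pool.Agent.Helper12_DDS.SchBir

/-! Squad PRP: the affine model of an integral scheme (helper94). -/

set_option autoImplicit false

open AlgebraicGeometry CategoryTheory

noncomputable section

namespace Pool.Agent.PRP.H94

variable {k : Type} [Field k]

/-- the constants in the function field -/
def constF {X : Scheme.{0}} [IrreducibleSpace X] (f : X ⟶ Spec (CommRingCat.of k)) :
    k →+* X.functionField :=
  ((Scheme.ΓSpecIso (CommRingCat.of k)).inv ≫ f.appTop ≫
    X.presheaf.germ ⊤ (genericPoint X) trivial).hom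

theorem exists_model {X : Scheme.{0}} [IsIntegral X] (f : X ⟶ Spec (CommRingCat.of k))
    [LocallyOfFiniteType f] :
    ∃ (r : ℕ) (I : Ideal (MvPolynomial (Fin r) k))
      (j : Spec (CommRingCat.of (MvPolynomial (Fin r) k ⧸ I)) ⟶ X)
      (e : (MvPolynomial (Fin r) k ⧸ I) →+* X.functionField),
      I.IsPrime ∧ IsOpenImmersion j ∧ j ≫ f = DDS.affStr I ∧
      (∀ a : k, e (algebraMap k _ a) = constF f a) ∧
      @IsFractionRing (MvPolynomial (Fin r) k ⧸ I) _ X.functionField _ e.toAlgebra := by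
  obtain ⟨_, ⟨U, hU, rfl⟩, hxU, -⟩ :=
    X.isBasis_affineOpens.exists_subset_of_mem_open (Set.mem_univ (genericPoint X)) isOpen_univ
  have hU' : IsAffineOpen U := hU
  have hne : Nonempty U := ⟨⟨_, hxU⟩⟩
  have hle : U ≤ f ⁻¹ᵁ ⊤ := le_top
  let g' : CommRingCat.of k ⟶ Γ(X, U) := (Scheme.ΓSpecIso (CommRingCat.of k)).inv ≫ f.appLE ⊤ U hle
  have hg' : g'.hom.FiniteType := by
    have h1 := f.finiteType_appLE (isAffineOpen_top _) hU' hle
    have h2 : (Scheme.ΓSpecIso (CommRingCat.of k)).inv.hom.FiniteType := by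
      apply RingHom.FiniteType.of_surjective
      exact (Scheme.ΓSpecIso (CommRingCat.of k)).symm.commRingCatIsoToRingEquiv.surjective
    exact h1.comp h2
  letI : Algebra k Γ(X, U) := g'.hom.toAlgebra
  have hft : Algebra.FiniteType k Γ(X, U) := hg'
  obtain ⟨r, π, hπ⟩ := Algebra.FiniteType.iff_quotient_mvPolynomial''.1 hft
  let I : Ideal (MvPolynomial (Fin r) k) := RingHom.ker π
  have hI : I.IsPrime := RingHom.ker_isPrime π
  let ε : (MvPolynomial (Fin r) k ⧸ I) ≃ₐ[k] Γ(X, U) := Ideal.quotientKerAlgEquivOfSurjective hπ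
  let e : (MvPolynomial (Fin r) k ⧸ I) →+* X.functionField :=
    (X.germToFunctionField U).hom.comp (ε : (MvPolynomial (Fin r) k ⧸ I) →+* Γ(X, U))
  let j : Spec (CommRingCat.of (MvPolynomial (Fin r) k ⧸ I)) ⟶ X :=
    Spec.map (CommRingCat.ofHom (ε.symm : Γ(X, U) →+* (MvPolynomial (Fin r) k ⧸ I))) ≫
      hU'.fromSpec
  have hiso : IsIso (Spec.map (CommRingCat.ofHom
      (ε.symm : Γ(X, U) →+* (MvPolynomial (Fin r) k ⧸ I)))) := by
    have : IsIso (CommRingCat.ofHom (ε.symm : Γ(X, U) →+* (MvPolynomial (Fin r) k ⧸ I))) :=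
      (ε.symm.toRingEquiv.toCommRingCatIso).isIso_hom
    infer_instance
  refine ⟨r, I, j, e, hI, ?_, ?_, ?_, ?_⟩
  · have := hU'.isOpenImmersion_fromSpec
    infer_instance
  · have h1 := IsAffineOpen.SpecMap_appLE_fromSpec f (isAffineOpen_top _) hU' hle
    show (Spec.map (CommRingCat.ofHom (ε.symm : Γ(X, U) →+* (MvPolynomial (Fin r) k ⧸ I))) ≫
      hU'.fromSpec) ≫ f = _
    rw [Category.assoc, ← h1, IsAffineOpen.fromSpec_top, Scheme.isoSpec_Spec_inv,
      ← Spec.map_comp, ← Spec.map_comp]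
    have h2 : (Scheme.ΓSpecIso (CommRingCat.of k)).inv ≫ f.appLE ⊤ U hle ≫
        CommRingCat.ofHom (ε.symm : Γ(X, U) →+* (MvPolynomial (Fin r) k ⧸ I)) =
        CommRingCat.ofHom (algebraMap k (MvPolynomial (Fin r) k ⧸ I)) := by
      ext a
      exact ε.symm.commutes a
    rw [Category.assoc, h2]
  · intro a
    have h1 : ε (algebraMap k _ a) = g'.hom a := ε.commutes a
    show (X.germToFunctionField U).hom (ε (algebraMap k _ a)) = constF f a
    rw [h1]
    have h2 : g' ≫ X.germToFunctionField U = (Scheme.ΓSpecIso (CommRingCat.of k)).inv ≫ f.appTop ≫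
        X.presheaf.germ ⊤ (genericPoint X) trivial := by
      show ((Scheme.ΓSpecIso (CommRingCat.of k)).inv ≫ f.appLE ⊤ U hle) ≫ _ = _
      rw [Category.assoc, Scheme.Hom.appLE, Category.assoc]
      congr 2
      exact X.presheaf.germ_res' _ _ _
    exact congrArg (fun h => h.hom a) h2
  · have h1 := functionField_isFractionRing_of_isAffineOpen X U hU'
    letI := e.toAlgebra
    exact IsFractionRing.of_ringEquiv_left ε.toRingEquiv (fun _ => rfl)

end Pool.Agent.PRP.H94
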