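import Pool.Agent.Helper55_DDQ.Quartic

/-! Squad PRP: functions of every degree on a Weierstrass cubic (helper94). -/

set_option autoImplicit false

noncomputable section

namespace Pool.Agent.PRP.H94

open IntermediateField

theorem finrank_le_two {L M : Type} [Field L] [Field M] [Algebra L M] (u v c : M)
    (hc : c ∈ adjoin L {u}) (hv : v ^ 2 = c) (htop : adjoin L {u, v} = ⊤) :
    0 < Module.finrank (adjoin L {u}) M ∧ Module.finrank (adjoin L {u}) M ≤ 2 := by
  set K0 : IntermediateField L M := adjoin L {u} with hK0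
  let P : Polynomial K0 := Polynomial.X ^ 2 - Polynomial.C ⟨c, hc⟩
  have hP : P.Monic := Polynomial.monic_X_pow_sub_C _ (by norm_num)
  have hPv : Polynomial.aeval v P = 0 := by
    show Polynomial.aeval v (Polynomial.X ^ 2 - Polynomial.C (⟨c, hc⟩ : K0)) = 0
    rw [map_sub, map_pow, Polynomial.aeval_X, Polynomial.aeval_C, hv]
    exact sub_self _
  have hint : IsIntegral K0 v := ⟨P, hP, hPv⟩
  have htop' : (adjoin K0 {v} : IntermediateField K0 M) = ⊤ := by
    have h1 := adjoin_simple_adjoin_simple L u v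
    rw [htop] at h1
    exact (restrictScalars_eq_top_iff (K := L)).1 h1
  have h2 : Module.finrank K0 M = (minpoly K0 v).natDegree := by
    rw [← adjoin.finrank hint, htop', finrank_top']
  have h3 : (minpoly K0 v).natDegree ≤ 2 := by
    refine (Polynomial.natDegree_le_of_dvd (minpoly.dvd K0 v hPv) hP.ne_zero).trans ?_
    exact (Polynomial.natDegree_X_pow_sub_C (n := 2)).le
  rw [h2]
  exact ⟨minpoly.natDegree_pos hint, h3⟩

theorem pow_deg {L M : Type} [Field L] [Field M] [Algebra L M] (u : M) (hu : Transcendental L u)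
    (htop : adjoin L {u} = ⊤) (n : ℕ) (hn : 0 < n) :
    Transcendental L (u ^ n) ∧ Module.finrank (adjoin L {u ^ n}) M = n := by
  have h1 : Module.finrank (adjoin L {u}) M = 1 := by
    rw [htop]
    exact IntermediateField.finrank_top
  refine DDQ.H21.swp L M u (u ^ n) (Polynomial.X - Polynomial.C (Polynomial.X ^ n)) n hu ?_
    (Polynomial.monic_X_sub_C _).isPrimitive ?_ ?_ ?_ ?_ ?_ hn
  · rw [← top_le_iff, ← htop]
    exact adjoin.mono L _ _ (by simp)
  · rw [Polynomial.eval₂_sub, Polynomial.eval₂_X, Polynomial.eval₂_C]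
    simp
  · rw [Polynomial.natDegree_X_sub_C, h1]
  · rw [Polynomial.natDegree_X_sub_C]
    norm_num
  · intro i
    rw [Polynomial.coeff_sub, Polynomial.coeff_X, Polynomial.coeff_C]
    refine (Polynomial.natDegree_sub_le _ _).trans (max_le ?_ ?_)
    · split_ifs <;> simp
    · split_ifs <;> simp
  · refine ⟨0, ?_⟩
    rw [Polynomial.coeff_sub, Polynomial.coeff_X_zero, Polynomial.coeff_C_zero, zero_sub,
      Polynomial.coeff_neg, Polynomial.coeff_X_pow, if_pos rfl]
    norm_num

theorem wei {L M : Type} [Field L] [CharZero L] [Field M] [Algebra L M] (u v : M) (a b : L)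
    (hu : Transcendental L u)
    (hv : v ^ 2 = u ^ 3 + algebraMap L M a * u + algebraMap L M b)
    (htop : adjoin L {u, v} = ⊤) (n : ℕ) (hn : 2 ≤ n) :
    ∃ t : M, Transcendental L t ∧ Module.finrank (adjoin L {t}) M = n := by
  have hmem : u ^ 3 + algebraMap L M a * u + algebraMap L M b ∈ adjoin L {u} := by
    have h1 : u ∈ adjoin L {u} := mem_adjoin_simple_self L u
    exact add_mem (add_mem (pow_mem h1 3) (mul_mem ((adjoin L {u}).algebraMap_mem a) h1))
      ((adjoin L {u}).algebraMap_mem b)
  obtain ⟨h1, h2⟩ := finrank_le_two u v _ hmem hv htop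
  rcases Nat.lt_or_ge (Module.finrank (adjoin L {u}) M) 2 with h3 | h3
  · have h4 : Module.finrank (adjoin L {u}) M = 1 := by omega
    have h5 : adjoin L {u} = ⊤ := finrank_eq_one_iff_eq_top.1 h4
    exact ⟨u ^ n, pow_deg u hu h5 n (by omega)⟩
  · refine DDQ.H55.cvt' L M u v 0 (-(Polynomial.X ^ 3 + Polynomial.C a * Polynomial.X +
      Polynomial.C b)) hu htop (by omega) (by simp) ?_ ?_ ?_ n hn
    · rw [Polynomial.natDegree_neg]
      compute_degree
    · right
      simp [Polynomial.coeff_X, Polynomial.coeff_C]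
    · rw [hv]
      simp

end Pool.Agent.PRP.H94
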